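import Mathlib

/-!
# MP_35e3b8_an : almost invariant Lipschitz functions far from invariant ones

The group `G` of order automorphisms of `ℝ` commuting with `x ↦ x + 1` acts isometrically on `ℝ`
with the metric `⌈|x - y|⌉ + C` (`x ≠ y`); the function `f x = x` is `1/(C+1)`-invariant.
-/

set_option autoImplicit false

namespace Pool.Agent.Results.MP_35e3b8_an.AlmostInvariant

section

variable {M : Type} [MetricSpace M]

/-- `f ∈ Lip₀(M)` for the base point `o`. -/
def IsLip0 (o : M) (f : M → ℝ) : Prop :=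
  f o = 0 ∧ ∃ K : ℝ, ∀ x y, |f x - f y| ≤ K * dist x y

/-- The least Lipschitz constant `L(f)` of `f`, which is the norm of `Lip₀(M)`. -/
noncomputable def lipNorm (f : M → ℝ) : ℝ :=
  sInf {K : ℝ | 0 ≤ K ∧ ∀ x y, |f x - f y| ≤ K * dist x y}

/-- The action of `G` on `Lip₀(M)`: `(g f)(x) = f (g⁻¹ x) - f (g⁻¹ o)`. -/
def act {G : Type} [Group G] [MulAction G M] (o : M) (g : G) (f : M → ℝ) : M → ℝ :=
  fun x => f (g⁻¹ • x) - f (g⁻¹ • o)

end

/-- The group of order automorphisms of `ℝ` commuting with `x ↦ x + 1`. -/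
def G : Subgroup (ℝ ≃o ℝ) where
  carrier := {g | ∀ x : ℝ, g (x + 1) = g x + 1}
  mul_mem' := by
    intro a b ha hb x
    change a (b (x + 1)) = a (b x) + 1
    rw [hb, ha]
  one_mem' := fun x => rfl
  inv_mem' := by
    intro a ha x
    change a.symm (x + 1) = a.symm x + 1
    rw [OrderIso.symm_apply_eq, ha, OrderIso.apply_symm_apply]

lemma G_one (g : G) (x : ℝ) : g.1 (x + 1) = g.1 x + 1 := g.2 x

lemma G_nat (g : G) (x : ℝ) (n : ℕ) : g.1 (x + n) = g.1 x + n := by
  induction n with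
  | zero => simp
  | succ n ih =>
    push_cast
    rw [← add_assoc, G_one, ih, add_assoc]

lemma G_int (g : G) (x : ℝ) (n : ℤ) : g.1 (x + n) = g.1 x + n := by
  obtain ⟨m, rfl | rfl⟩ := n.eq_nat_or_neg
  · exact_mod_cast G_nat g x m
  · have := G_nat g (x + ((-m : ℤ) : ℝ)) m
    push_cast at this ⊢
    rw [neg_add_cancel_right] at this
    linarith

/-- the real line with the metric `⌈|x - y|⌉ + C` -/
@[ext] structure Line (C : ℕ) : Type where
  /-- the coordinate -/
  val : ℝ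

/-- distance function -/
noncomputable def dd (C : ℕ) (x y : ℝ) : ℝ := by
  classical
  exact if x = y then 0 else (⌈|x - y|⌉₊ : ℝ) + C

lemma dd_self (C : ℕ) (x : ℝ) : dd C x x = 0 := by simp [dd]
lemma dd_of_ne (C : ℕ) {x y : ℝ} (h : x ≠ y) : dd C x y = (⌈|x - y|⌉₊ : ℝ) + C := by simp [dd, h]
lemma dd_comm (C : ℕ) (x y : ℝ) : dd C x y = dd C y x := by
  rcases eq_or_ne x y with rfl | h
  · rfl
  · rw [dd_of_ne C h, dd_of_ne C h.symm, abs_sub_comm]
lemma dd_nonneg (C : ℕ) (x y : ℝ) : 0 ≤ dd C x y := by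
  rcases eq_or_ne x y with rfl | h
  · rw [dd_self]
  · rw [dd_of_ne C h]; positivity
lemma dd_triangle (C : ℕ) (x y z : ℝ) : dd C x z ≤ dd C x y + dd C y z := by
  rcases eq_or_ne x y with rfl | h1
  · rw [dd_self, zero_add]
  rcases eq_or_ne y z with rfl | h2
  · rw [dd_self, add_zero]
  rcases eq_or_ne x z with rfl | h3
  · rw [dd_self]; exact add_nonneg (dd_nonneg _ _ _) (dd_nonneg _ _ _)
  rw [dd_of_ne C h1, dd_of_ne C h2, dd_of_ne C h3]
  have h4 : ⌈|x - z|⌉₊ ≤ ⌈|x - y|⌉₊ + ⌈|y - z|⌉₊ := by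
    rw [Nat.ceil_le]
    push_cast
    have e1 := Nat.le_ceil (|x - y|)
    have e2 := Nat.le_ceil (|y - z|)
    have e3 := abs_sub_le x y z
    linarith
  have h5 : (⌈|x - z|⌉₊ : ℝ) ≤ ⌈|x - y|⌉₊ + ⌈|y - z|⌉₊ := by exact_mod_cast h4
  have : (0 : ℝ) ≤ C := Nat.cast_nonneg C
  linarith
lemma dd_pos (C : ℕ) {x y : ℝ} (h : x ≠ y) : (C : ℝ) + 1 ≤ dd C x y := by
  rw [dd_of_ne C h]
  have : 1 ≤ ⌈|x - y|⌉₊ := Nat.one_le_iff_ne_zero.2 (by
    rw [Ne, Nat.ceil_eq_zero, not_le]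
    exact abs_pos.2 (sub_ne_zero.2 h))
  have : (1 : ℝ) ≤ ⌈|x - y|⌉₊ := by exact_mod_cast this
  linarith
lemma abs_le_dd (C : ℕ) (x y : ℝ) : |x - y| ≤ dd C x y := by
  rcases eq_or_ne x y with rfl | h
  · simp [dd_self]
  · rw [dd_of_ne C h]
    have := Nat.le_ceil (|x - y|)
    have : (0 : ℝ) ≤ C := Nat.cast_nonneg C
    linarith

noncomputable instance (C : ℕ) : MetricSpace (Line C) where
  dist x y := dd C x.val y.val
  dist_self x := dd_self C x.val
  dist_comm x y := dd_comm C x.val y.val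
  dist_triangle x y z := dd_triangle C x.val y.val z.val
  eq_of_dist_eq_zero := by
    intro x y h
    by_contra hne
    have h1 := dd_pos C (x := x.val) (y := y.val) (fun h' => hne (Line.ext h'))
    have h2 : dd C x.val y.val = 0 := h
    have : (0 : ℝ) ≤ C := Nat.cast_nonneg C
    linarith

lemma dist_line {C : ℕ} (x y : Line C) : dist x y = dd C x.val y.val := rfl

instance (C : ℕ) : MulAction G (Line C) where
  smul g x := ⟨g.1 x.val⟩
  one_smul _ := rfl
  mul_smul _ _ _ := rfl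

lemma smul_line {C : ℕ} (g : G) (x : Line C) : (g • x).val = g.1 x.val := rfl

lemma G_dist (g : G) (x y : ℝ) (n : ℕ) : |g.1 x - g.1 y| ≤ n ↔ |x - y| ≤ n := by
  rw [abs_le, abs_le]
  have e1 : -(n : ℝ) ≤ g.1 x - g.1 y ↔ -(n : ℝ) ≤ x - y := by
    rw [← (show g.1 y ≤ g.1 (x + n) ↔ y ≤ x + n from g.1.le_iff_le).trans
      (show y ≤ x + n ↔ -(n : ℝ) ≤ x - y by constructor <;> intro h <;> linarith), G_nat]
    constructor <;> intro h <;> linarith
  have e2 : g.1 x - g.1 y ≤ n ↔ x - y ≤ n := by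
    rw [← (show g.1 x ≤ g.1 (y + n) ↔ x ≤ y + n from g.1.le_iff_le).trans
      (show x ≤ y + n ↔ x - y ≤ n by constructor <;> intro h <;> linarith), G_nat]
    constructor <;> intro h <;> linarith
  rw [e1, e2]

instance (C : ℕ) : IsIsometricSMul G (Line C) where
  isometry_smul g := by
    apply Isometry.of_dist_eq
    intro x y
    rw [dist_line, dist_line, smul_line, smul_line]
    rcases eq_or_ne x.val y.val with h | h
    · rw [h, dd_self, dd_self]
    · rw [dd_of_ne C (fun h' => h (g.1.injective h')), dd_of_ne C h]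
      congr 2
      apply le_antisymm
      · rw [Nat.ceil_le, G_dist]; exact Nat.le_ceil _
      · rw [Nat.ceil_le, ← G_dist g]; exact Nat.le_ceil _

lemma G_diff (g : G) (x y : ℝ) : |(g.1 x - g.1 y) - (x - y)| ≤ 1 := by
  have h1 := Int.floor_le (x - y)
  have h2 := Int.lt_floor_add_one (x - y)
  set n := ⌊x - y⌋
  have h3 : g.1 (y + n) ≤ g.1 x := g.1.monotone (by linarith)
  have h4 : g.1 x ≤ g.1 (y + (n + 1 : ℤ)) := g.1.monotone (by push_cast; linarith)
  rw [G_int] at h3 h4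
  push_cast at h4
  rw [abs_le]
  constructor <;> linarith

/-! ### the commutator -/

lemma fract_val {n : ℤ} {s : ℝ} (h0 : 0 ≤ s) (h1 : s < 1) :
    ⌊(n : ℝ) + s⌋ = n ∧ Int.fract ((n : ℝ) + s) = s := by
  have : ⌊s⌋ = 0 := Int.floor_eq_zero_iff.2 ⟨h0, h1⟩
  constructor
  · rw [Int.floor_intCast_add, this, add_zero]
  · rw [Int.fract_intCast_add, Int.fract_eq_self.2 ⟨h0, h1⟩]

/-- a piecewise linear homeomorphism of the circle, lifted to the line -/
noncomputable def bt (y : ℝ) : ℝ := ⌊y⌋ + min (3 * Int.fract y) ((Int.fract y + 2) / 3)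

noncomputable def bs (y : ℝ) : ℝ := ⌊y⌋ + max (Int.fract y / 3) (3 * Int.fract y - 2)

lemma bt_strictMono : StrictMono bt := by
  intro x y h
  unfold bt
  have hx0 := Int.fract_nonneg x
  have hx1 := Int.fract_lt_one x
  have hy0 := Int.fract_nonneg y
  have hy1 := Int.fract_lt_one y
  rcases (Int.floor_mono h.le).lt_or_eq with h1 | h1
  · have h2 : (⌊x⌋ : ℝ) + 1 ≤ ⌊y⌋ := by exact_mod_cast h1
    have h3 : min (3 * Int.fract x) ((Int.fract x + 2) / 3) < 1 :=
      (min_le_right _ _).trans_lt (by linarith)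
    have h4 : 0 ≤ min (3 * Int.fract y) ((Int.fract y + 2) / 3) :=
      le_min (by linarith) (by linarith)
    linarith
  · have h2 : Int.fract x < Int.fract y := by
      unfold Int.fract
      rw [h1]; linarith
    rw [h1]
    have : min (3 * Int.fract x) ((Int.fract x + 2) / 3) <
        min (3 * Int.fract y) ((Int.fract y + 2) / 3) := by
      apply lt_min
      · exact (min_le_left _ _).trans_lt (by linarith)
      · exact (min_le_right _ _).trans_lt (by linarith)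
    linarith

lemma bt_bs (y : ℝ) : bt (bs y) = y := by
  have h0 := Int.fract_nonneg y
  have h1 := Int.fract_lt_one y
  have hs0 : 0 ≤ max (Int.fract y / 3) (3 * Int.fract y - 2) :=
    le_max_of_le_left (by linarith)
  have hs1 : max (Int.fract y / 3) (3 * Int.fract y - 2) < 1 := max_lt (by linarith) (by linarith)
  obtain ⟨e1, e2⟩ := fract_val (n := ⌊y⌋) hs0 hs1
  unfold bt
  change ⌊bs y⌋ = _ at e1
  change Int.fract (bs y) = _ at e2
  rw [e1, e2]
  have e3 : min (3 * max (Int.fract y / 3) (3 * Int.fract y - 2))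
      ((max (Int.fract y / 3) (3 * Int.fract y - 2) + 2) / 3) = Int.fract y := by
    rcases le_total (Int.fract y) (3 / 4) with h | h
    · rw [max_eq_left (by linarith), min_eq_left (by linarith)]; ring
    · rw [max_eq_right (by linarith), min_eq_right (by linarith)]; ring
  rw [e3]
  exact Int.floor_add_fract y

noncomputable def btIso : ℝ ≃o ℝ := StrictMono.orderIsoOfRightInverse bt bt_strictMono bs bt_bs

lemma btIso_apply (x : ℝ) : btIso x = bt x := rfl

noncomputable def gb : G := ⟨btIso, fun x => by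
  rw [btIso_apply, btIso_apply]
  unfold bt
  rw [Int.floor_add_one, Int.fract_add_one]
  push_cast; ring⟩

noncomputable def tr (c : ℝ) : G := ⟨OrderIso.addRight c, fun x => by
  simp only [OrderIso.addRight_apply]; ring⟩

lemma tr_apply (c x : ℝ) : (tr c).1 x = x + c := rfl

lemma mul_ap (g h : G) (x : ℝ) : (g * h).1 x = g.1 (h.1 x) := rfl

lemma inv_ap (g : G) {x y : ℝ} (h : g.1 x = y) : (g⁻¹).1 y = x := by
  change g.1.symm y = x
  rw [OrderIso.symm_apply_eq, h]

noncomputable def B : G := gb * tr (-(1 / 4))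
noncomputable def A : G := tr (1 / 4) * B * tr (-(1 / 4))

noncomputable def z : G := A * B * A⁻¹ * B⁻¹

lemma bt_zero : bt 0 = 0 := by
  simp [bt]
  norm_num

lemma bt_quarter : bt (1 / 4) = 3 / 4 := by
  have h : ⌊(1 / 4 : ℝ)⌋ = 0 := Int.floor_eq_zero_iff.2 ⟨by norm_num, by norm_num⟩
  have h2 : Int.fract (1 / 4 : ℝ) = 1 / 4 := Int.fract_eq_self.2 ⟨by norm_num, by norm_num⟩
  unfold bt
  rw [h, h2, min_eq_left (by norm_num)]
  norm_num

lemma B_quarter : B.1 (1 / 4) = 0 := by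
  rw [B, mul_ap, tr_apply]
  change bt _ = _
  rw [show (1 / 4 : ℝ) + -(1 / 4) = 0 by ring, bt_zero]

lemma B_half : B.1 (1 / 2) = 3 / 4 := by
  rw [B, mul_ap, tr_apply]
  change bt _ = _
  rw [show (1 / 2 : ℝ) + -(1 / 4) = 1 / 4 by ring, bt_quarter]

lemma A_half : A.1 (1 / 2) = 1 / 4 := by
  rw [A, mul_ap, mul_ap, tr_apply (-(1 / 4)), show (1 / 2 : ℝ) + -(1 / 4) = 1 / 4 by ring,
    B_quarter, tr_apply]
  ring

lemma A_three : A.1 (3 / 4) = 1 := by
  rw [A, mul_ap, mul_ap, tr_apply (-(1 / 4)), show (3 / 4 : ℝ) + -(1 / 4) = 1 / 2 by ring,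
    B_half, tr_apply]
  ring

lemma z_zero : z.1 0 = 1 := by
  rw [z, mul_ap, mul_ap, mul_ap, inv_ap B B_quarter, inv_ap A A_half, B_half, A_three]

lemma z_nat (n : ℕ) : z.1 n = n + 1 := by
  have := G_nat z 0 n
  rw [zero_add] at this
  rw [this, z_zero, add_comm]

lemma inv_fun {C : ℕ} {F : Line C → ℝ} (h0 : F ⟨0⟩ = 0)
    (hF : ∀ g : G, act ⟨0⟩ g F = F) (n : ℕ) : F ⟨n⟩ = 0 := by
  have key : ∀ (g : G) (x : ℝ), F ⟨g.1 x⟩ = F ⟨x⟩ + F ⟨g.1 0⟩ := by
    intro g x
    have := congrFun (hF g⁻¹) ⟨x⟩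
    change F ((g⁻¹)⁻¹ • ⟨x⟩) - F ((g⁻¹)⁻¹ • ⟨0⟩) = F ⟨x⟩ at this
    rw [inv_inv] at this
    change F ⟨g.1 x⟩ - F ⟨g.1 0⟩ = F ⟨x⟩ at this
    linarith
  have hmul : ∀ g h : G, F ⟨(g * h).1 0⟩ = F ⟨g.1 0⟩ + F ⟨h.1 0⟩ := by
    intro g h
    rw [mul_ap, key]; ring
  have hinv : ∀ g : G, F ⟨(g⁻¹).1 0⟩ = - F ⟨g.1 0⟩ := by
    intro g
    have h1 := hmul g g⁻¹
    rw [mul_inv_cancel] at h1
    change F ⟨0⟩ = _ at h1
    rw [h0] at h1
    linarith
  have hz : F ⟨z.1 0⟩ = 0 := by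
    rw [z, hmul, hmul, hmul, hinv, hinv]; ring
  induction n with
  | zero => rw [Nat.cast_zero]; exact h0
  | succ n ih =>
    have h2 := key z n
    rw [ih, hz, z_nat] at h2
    push_cast
    rw [h2]; ring

lemma one_le {C : ℕ} {F : Line C → ℝ} (hF : ∀ n : ℕ, F ⟨n⟩ = 0) {K : ℝ}
    (hK : ∀ x y : Line C, |(x.val - F x) - (y.val - F y)| ≤ K * dist x y) : 1 ≤ K := by
  by_contra hlt
  push Not at hlt
  obtain ⟨n, hn⟩ := exists_nat_gt ((C : ℝ) / (1 - K))
  have hn0 : 0 < n := by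
    rcases Nat.eq_zero_or_pos n with h | h
    · rw [h] at hn
      have : 0 ≤ (C : ℝ) / (1 - K) := div_nonneg (Nat.cast_nonneg _) (by linarith)
      norm_num at hn; linarith
    · exact h
  have hn1 : (0 : ℝ) < n := by exact_mod_cast hn0
  have h := hK ⟨n⟩ ⟨0⟩
  have h0 := hF 0
  rw [Nat.cast_zero] at h0
  rw [hF n, h0, dist_line, dd_of_ne C hn1.ne'] at h
  rw [sub_zero, sub_zero, sub_zero, abs_of_pos hn1, Nat.ceil_natCast] at h
  rw [div_lt_iff₀ (by linarith)] at hn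
  have hC : (0 : ℝ) ≤ C := Nat.cast_nonneg C
  nlinarith

/-- **MP_35e3b8_an, Q1: the answer is no.**  For every `ε > 0` there are a pointed metric space
with an isometric group action and an `ε`-invariant `f ∈ Lip₀(M)` with `L(f) = 1` whose distance to
every invariant element of `Lip₀(M)` is at least `1`.  (For `0 < δ < 1` and `ε = δ / 10` this is the
negated form of Q1.) -/
theorem result : ∀ ε : ℝ, 0 < ε → ∃ (M : Type) (_ : MetricSpace M) (o : M) (G : Type) (_ : Group G)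
    (_ : MulAction G M) (_ : IsIsometricSMul G M) (f : M → ℝ),
    IsLip0 o f ∧ lipNorm f = 1 ∧ (∀ g : G, lipNorm (act o g f - f) ≤ ε) ∧
    ∀ F : M → ℝ, IsLip0 o F → (∀ g : G, act o g F = F) → 1 ≤ lipNorm (f - F) := by
  intro ε hε
  obtain ⟨C, hC⟩ := exists_nat_gt (1 / ε)
  have hC' : 1 ≤ ε * (C + 1) := by
    rw [div_lt_iff₀ hε] at hC
    nlinarith
  refine ⟨Line C, inferInstance, ⟨0⟩, G, inferInstance, inferInstance, inferInstance,
    fun x => x.val, ⟨rfl, 1, fun x y => ?_⟩, ?_, ?_, ?_⟩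
  · rw [one_mul]; exact abs_le_dd C x.val y.val
  · have hmem : (1 : ℝ) ∈ {K : ℝ | 0 ≤ K ∧ ∀ x y : Line C,
        |x.val - y.val| ≤ K * dist x y} :=
      ⟨zero_le_one, fun x y => by rw [one_mul]; exact abs_le_dd C x.val y.val⟩
    apply le_antisymm (csInf_le ⟨0, fun K hK => hK.1⟩ hmem)
    apply le_csInf ⟨1, hmem⟩
    rintro K ⟨-, hK⟩
    refine one_le (C := C) (F := fun _ => 0) (fun _ => rfl) (fun x y => ?_)
    have := hK x y
    simpa using this
  · intro g
    apply csInf_le ⟨0, fun K hK => hK.1⟩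
    refine ⟨hε.le, fun x y => ?_⟩
    rcases eq_or_ne x y with rfl | hne
    · simp
    have h1 := G_diff g⁻¹ x.val y.val
    have h2 := dd_pos C (x := x.val) (y := y.val) (fun h => hne (Line.ext h))
    change |(((g⁻¹).1 x.val - (g⁻¹).1 0) - x.val) - (((g⁻¹).1 y.val - (g⁻¹).1 0) - y.val)| ≤
      ε * dd C x.val y.val
    have h3 : (((g⁻¹).1 x.val - (g⁻¹).1 0) - x.val) - (((g⁻¹).1 y.val - (g⁻¹).1 0) - y.val) =
      ((g⁻¹).1 x.val - (g⁻¹).1 y.val) - (x.val - y.val) := by ring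
    rw [h3]
    calc _ ≤ (1 : ℝ) := h1
      _ ≤ ε * (C + 1) := hC'
      _ ≤ ε * dd C x.val y.val := mul_le_mul_of_nonneg_left h2 hε.le
  · intro F hF hFinv
    have hF0 := inv_fun (C := C) (F := F) hF.1 hFinv
    obtain ⟨K, hK⟩ := hF.2
    apply le_csInf
    · refine ⟨1 + |K|, by positivity, fun x y => ?_⟩
      change |(x.val - F x) - (y.val - F y)| ≤ _
      have e : (x.val - F x) - (y.val - F y) = (x.val - y.val) - (F x - F y) := by ring
      rw [e]
      have h1 : |F x - F y| ≤ |K| * dist x y :=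
        (hK x y).trans (mul_le_mul_of_nonneg_right (le_abs_self K) dist_nonneg)
      have h2 : |x.val - y.val| ≤ dist x y := abs_le_dd C x.val y.val
      have h3 := abs_sub (x.val - y.val) (F x - F y)
      linarith
    · rintro K' ⟨-, hK'⟩
      exact one_le (C := C) hF0 (fun x y => hK' x y)

end Pool.Agent.Results.MP_35e3b8_an.AlmostInvariant
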